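import Mathlib
import Pool.Agent.R901.QZ.Lim

/-!
# Sign positivity for the Cohen-Lenstra zeta function of the singularity `y (y - x ^ m) = 0`

Let `R = k[[x, y]] / (y (y - x ^ m))`, `m ≥ 1`. The second question asks whether the power series
`NZ^_R (- t)`, `NZ^_R (t) = (L⁻¹ t; L⁻¹)_∞ ^ 2 ∑ [Coh_n (R)] t ^ n`, has nonnegative integral
coefficients, as a power series in `L⁻¹` and `t`. The answer is yes.

For a finite field `k` with `q` elements the number of points of the stack `Coh_n (R)` is the sum of
the numbers `1 / #Aut (M)` over the isomorphism classes of `R`-modules `M` with `dim M = n`, and equal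
to `#C_n (k) / #GL_n (k)`, where `C_n` is the variety of the structures of an `R`-module on `k ^ n`. We
prove: **there is a power series** `P` **in** `u` **and** `t` **with nonnegative integral coefficients
such that** `NZ^_R (- t) = P (q⁻¹, t)` **for all finite fields**, coefficient by coefficient in `t`; all
series are absolutely convergent. As power series in `u` which converge for `u = 1 / 2` are
determined by their values at `u = 1 / q`, `q` any power of a prime number, this means that
`NZ^_R (- t) = P`.

The proof. We know that `NZ_{R^d}(- t q ^ (- d))` is a polynomial in `u = q⁻¹` and `t` with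
nonnegative coefficients (`QuotPositivity` in this folder). By the computation there it is
`(Φ ^ m g_d) (d)`, `(Φ g) (c) = ∑ e, [c, e]_u u ^ (e ^ 2) t ^ (2 e) g (e)`,
`g_d (e) = ∏ (1 + t u ^ j)`, the product over `e < j ≤ d`. Each coefficient is a monotone function of
`d`, as this is so for the Gaussian binomial coefficients and for `g_d`. For fixed `q` the
coefficients of `t ^ n` converge for `d → ∞`, and the limit is the one of `NZ^_R (- t)`: the group
`GL_n (k)` acts freely on the pairs consisting of an `R`-module structure on `k ^ n` and `d`
generators of this module, the orbits are the quotients of `R ^ d`, and almost all families of `d`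
elements of `k ^ n` are systems of generators. So each coefficient of `u ^ j t ^ n` is bounded,
hence constant for large `d`, and by monotone convergence the limit can be taken coefficient by
coefficient. The limit is

  `∑ u ^ (∑ c_i ^ 2) t ^ (2 ∑ c_i) (- t u ^ (c_m + 1); u)_∞ / ((u; u)_(c_1 - c_2) ⋯ (u; u)_(c_m))`,

the sum over all integers `c_1 ≥ c_2 ≥ ⋯ ≥ c_m ≥ 0`.
-/

set_option autoImplicit false

namespace Pool.Agent.Results.MP_4a19d5_ag.CohenLenstraPositivity

open Pool.Agent.R901.QZ

/-- **For all `m ≥ 1` there is a power series `P` in two variables `t` (outer variable) and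
`u` (inner variable) with nonnegative integral coefficients such that, for all finite fields `k`
with `q` elements and all `n`, the set of the `R`-module structures on `k ^ n` is finite, and the
coefficients of `t ^ n` in `(q⁻¹ t; q⁻¹)_N ^ 2 ∑ #Coh_n (R)(k) t ^ n`, multiplied by `(-1) ^ n`, converge
for `N → ∞` to the value at `u = q⁻¹` of the coefficient of `t ^ n` in `P`.** -/
theorem result (m : ℕ) (hm : 1 ≤ m) :
    ∃ P : PowerSeries (PowerSeries ℕ), ∀ (k : Type) [Field k] [Finite k] (n : ℕ),
      Finite (ModStr k m n) ∧ ∃ a : ℝ,
        HasSum (fun j => ((PowerSeries.coeff j (PowerSeries.coeff n P) : ℕ) : ℝ) *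
          ((Nat.card k : ℝ)⁻¹) ^ j) a ∧
        Filter.Tendsto (fun N => (-1) ^ n * PowerSeries.coeff n (NZhat k m N)) Filter.atTop
          (nhds a) := by
  refine ⟨PowerSeries.mk fun n => PowerSeries.mk fun j => pl m n j, fun k _ _ n =>
    ⟨finite_modStr hm n, ?_⟩⟩
  obtain ⟨a, ha, ha'⟩ := main_Q2 (k := k) hm n
  refine ⟨a, ?_, ha'⟩
  simpa only [PowerSeries.coeff_mk] using ha

end Pool.Agent.Results.MP_4a19d5_ag.CohenLenstraPositivity
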