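import Mathlib
import Pool.Agent.R901.QZ.Cnt

/-!
# Sign positivity for the Quot zeta functions of the singularity `y (y - x ^ m) = 0`

Let `R = k[[x, y]] / (y (y - x ^ m))`, `m ≥ 1`. The first question asks whether the numerator part
`NZ_{R^d}(t) = (t; L)_d ^ 2 ∑ [Quot_n (R ^ d)] t ^ n`, which is a polynomial in `L` and `t` with
integral coefficients that does not depend on the field `k`, has the property that
`NZ_{R^d}(- t)` has nonnegative coefficients. The answer is yes.

For a finite field `k` with `q` elements the number of the `k`-points of `Quot_n (R ^ d)` is the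
number of the `R`-submodules `L` of `R ^ d` with `dim (R ^ d / L) = n`, and so the number of points
of the class `NZ_{R^d}(t)` is the value of the polynomial at `L = q`; a polynomial in `L` and `t` is
determined by these values, as there are infinitely many finite fields. We prove: **there is a
polynomial** `P = num m d` **in** `t` **and** `L` **with nonnegative integral coefficients such that**
`NZ_{R^d}(- t) = P (q, t)` **for all finite fields.** So `NZ_{R^d}(- t) = P`.

The proof gives a formula. Let `S = k[[x]]`, `V = S ^ d`. Write `R ^ d = V + y V`, where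
`y (a + y b) = y (a + x ^ m b)`. An `R`-submodule `L` of finite codimension is given by its image
`L₁` in `R ^ d / y R ^ d = V`, the `S`-module `L₂` with `L ∩ y R ^ d = y L₂`, and an `S`-linear map
`φ : L₁ → V / L₂` with `x ^ m φ (a) = - a` in `V / L₂`. Such `φ` exist if and only if
`L₁ ⊆ B := L₂ + x ^ m V`, and their number is then `q ^ (d c)`, `c = dim V / B`. The sum over all
`L₁ ⊆ B` of `t ^ (dim V / L₁)` is `t ^ c / (t; q)_d`; the sum over all `L₂` with
`L₂ + x ^ m V = B` of `t ^ (dim V / L₂)` is `t ^ c (t; q)_r / (t; q)_d`, where `r` is the rank
(the minimal number of generators) of `B / x ^ m V`. Hence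

  `NZ_{R^d}(t) = ∑ (q ^ d t ^ 2) ^ (dim V / B) (t; q)_(rank B / x ^ m V)`,

the sum over all submodules `B / x ^ m V` of `(S / x ^ m) ^ d`. The sum of
`u ^ (dim V / B) f (rank B / x ^ m V)` is computed by recursion on `m`: the lattices `B` over a given
`B' = B + x ^ (m - 1) V` of rank `r` with `dim B' / B = e` correspond to the subspaces of
codimension `e` of the `d`-dimensional space `B' / x B'` that generate it together with a given
subspace of codimension `r`. Their number is `q ^ (r e)` times the Gaussian binomial coefficient
`[d - r, e]`, and they have rank `d - e`. So the sum is `(Φ ^ m f) (0)`,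
`(Φ f) (r) = ∑ e, [d - r, e] q ^ (r e) u ^ e f (d - e)`, and for `f (r) = (- t; q)_r` and
`u = q ^ d t ^ 2` we get a polynomial with nonnegative coefficients.
-/

set_option autoImplicit false

namespace Pool.Agent.Results.MP_4a19d5_ag.QuotPositivity

open Pool.Agent.R901.QZ

/-- **For all `m ≥ 1` and `d ≥ 0` there is a polynomial `P` in two variables `t` (outer variable) and
`L` (inner variable) with nonnegative integral coefficients such that, for all finite fields `k`, the
sets `Quot_n (R ^ d)(k)` are finite, and `NZ_{R^d}(- t)` is obtained from `P` by `L = q`, the number of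
elements of `k`.** -/
theorem result (m d : ℕ) (hm : 1 ≤ m) :
    ∃ P : Polynomial (Polynomial ℕ), ∀ (k : Type) [Field k] [Finite k] (n : ℕ),
      Finite (QuotPoints k m d n) ∧
      (-1) ^ n * PowerSeries.coeff n (NZ k m d) =
        ((((P.coeff n).eval (Nat.card k) : ℕ)) : ℤ) :=
  ⟨num m d, fun k _ _ n => ⟨finite_points k hm d n, main_Q1 k hm d n⟩⟩

end Pool.Agent.Results.MP_4a19d5_ag.QuotPositivity
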